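import Pool.Agent.Helper72.WC.Defs

/-!
# Project WC, module A1: balls and connected sets
-/

set_option autoImplicit false

namespace Pool.Agent.Helper72.WC

open Finset

variable {n : ℕ}

theorem ball_card {C : Finset (Sym2 (Fin n))} {Δ : ℕ} (h : ∀ x, dg C x ≤ Δ) (i : ℕ) (x : Fin n) :
    (ball C i x).card ≤ (Δ + 1) ^ i := by
  induction i with
  | zero => simp [ball]
  | succ i ih =>
    have h1 : (ball C (i + 1) x).card ≤
        (ball C i x).card + ((ball C i x).biUnion (nb C)).card := Finset.card_union_le _ _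
    have h2 : ((ball C i x).biUnion (nb C)).card ≤ (ball C i x).card * Δ :=
      Finset.card_biUnion_le_card_mul _ _ _ fun y _ => h y
    calc (ball C (i + 1) x).card ≤ (ball C i x).card + (ball C i x).card * Δ := by omega
      _ = (ball C i x).card * (Δ + 1) := by ring
      _ ≤ (Δ + 1) ^ i * (Δ + 1) := Nat.mul_le_mul_right _ ih
      _ = (Δ + 1) ^ (i + 1) := (pow_succ _ _).symm

theorem Conn.mono {C C' : Finset (Sym2 (Fin n))} {X : Finset (Fin n)} (h : Conn C X)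
    (hC : C ⊆ C') : Conn C' X := by
  refine ⟨h.1, fun S hS h1 h2 => ?_⟩
  obtain ⟨x, hx, y, hy, hxy⟩ := h.2 S hS h1 h2
  exact ⟨x, hx, y, hy, hC hxy⟩

theorem Conn.union {C : Finset (Sym2 (Fin n))} {X Y : Finset (Fin n)} (hX : Conn C X)
    (hY : Conn C Y) {x y : Fin n} (hx : x ∈ X) (hy : y ∈ Y) (hxy : s(x, y) ∈ C) :
    Conn C (X ∪ Y) := by
  have key : ∀ Z : Finset (Fin n), Conn C Z → ∀ S : Finset (Fin n), (S ∩ Z).Nonempty →
      (Z \ S).Nonempty → ∃ a ∈ S, ∃ c ∈ Z \ S, s(a, c) ∈ C := by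
    intro Z hZ S h1 h2
    have h3 : Z \ (S ∩ Z) = Z \ S := by
      ext w; simp only [mem_sdiff, mem_inter]; tauto
    obtain ⟨a, ha, c, hc, hac⟩ := hZ.2 (S ∩ Z) inter_subset_right h1 (by rw [h3]; exact h2)
    rw [h3] at hc
    exact ⟨a, (mem_inter.mp ha).1, c, hc, hac⟩
  refine ⟨⟨x, mem_union_left _ hx⟩, fun S hS h1 h2 => ?_⟩
  by_cases hcX : (S ∩ X).Nonempty ∧ (X \ S).Nonempty
  · obtain ⟨a, ha, c, hc, hac⟩ := key X hX S hcX.1 hcX.2
    exact ⟨a, ha, c, mem_sdiff.mpr ⟨mem_union_left _ (mem_sdiff.mp hc).1, (mem_sdiff.mp hc).2⟩, hac⟩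
  by_cases hcY : (S ∩ Y).Nonempty ∧ (Y \ S).Nonempty
  · obtain ⟨a, ha, c, hc, hac⟩ := key Y hY S hcY.1 hcY.2
    exact ⟨a, ha, c, mem_sdiff.mpr ⟨mem_union_right _ (mem_sdiff.mp hc).1, (mem_sdiff.mp hc).2⟩, hac⟩
  by_cases hxS : x ∈ S
  · have hXS : X ⊆ S := by
      by_contra hn
      refine hcX ⟨⟨x, mem_inter.mpr ⟨hxS, hx⟩⟩, ?_⟩
      rw [sdiff_nonempty]; exact hn
    have hyS : y ∉ S := fun hyS => by
      have hYS : Y ⊆ S := by
        by_contra hn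
        refine hcY ⟨⟨y, mem_inter.mpr ⟨hyS, hy⟩⟩, ?_⟩
        rw [sdiff_nonempty]; exact hn
      obtain ⟨w, hw⟩ := h2
      rw [mem_sdiff, mem_union] at hw
      rcases hw.1 with hw' | hw'
      · exact hw.2 (hXS hw')
      · exact hw.2 (hYS hw')
    exact ⟨x, hxS, y, mem_sdiff.mpr ⟨mem_union_right _ hy, hyS⟩, hxy⟩
  · have hXS : ∀ w ∈ X, w ∉ S := fun w hw hwS =>
      hcX ⟨⟨w, mem_inter.mpr ⟨hwS, hw⟩⟩, ⟨x, mem_sdiff.mpr ⟨hx, hxS⟩⟩⟩
    have hyS : y ∈ S := by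
      by_contra hyS
      obtain ⟨w, hw⟩ := h1
      rcases mem_union.mp (hS hw) with hw' | hw'
      · exact hXS w hw' hw
      · exact hcY ⟨⟨w, mem_inter.mpr ⟨hw, hw'⟩⟩, ⟨y, mem_sdiff.mpr ⟨hy, hyS⟩⟩⟩
    refine ⟨y, hyS, x, mem_sdiff.mpr ⟨mem_union_left _ hx, hxS⟩, ?_⟩
    rw [Sym2.eq_swap]
    exact hxy

end Pool.Agent.Helper72.WC
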